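import Pool.Agent.H37.CSZ.Stmts

/-! # ZZX: an Artin-Schreier class which is not trivial -/

set_option autoImplicit false

namespace Pool.CND

open Polynomial in
theorem ZZXaux.deg {k : Type} [Field k] (a b p : Polynomial k) (hb : b ≠ 0)
    (hp : Odd p.natDegree) : a ^ 2 + a * b ≠ p * b ^ 2 := by
  intro h
  have hp0 : p ≠ 0 := by
    rintro rfl
    simp at hp
  have h1 : (p * b ^ 2).natDegree = p.natDegree + 2 * b.natDegree := by
    rw [natDegree_mul hp0 (pow_ne_zero 2 hb), natDegree_pow]
  rcases lt_or_ge b.natDegree a.natDegree with hlt | hge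
  · have ha : a ≠ 0 := by
      rintro rfl
      simp at hlt
    have h2 : (a ^ 2 + a * b).natDegree = 2 * a.natDegree := by
      rw [natDegree_add_eq_left_of_natDegree_lt, natDegree_pow]
      rw [natDegree_mul ha hb, natDegree_pow]
      omega
    rw [h, h1] at h2
    obtain ⟨m, hm⟩ := hp
    omega
  · have h2 : (a ^ 2 + a * b).natDegree ≤ 2 * b.natDegree := by
      refine (natDegree_add_le _ _).trans (max_le ?_ ?_)
      · rw [natDegree_pow]
        omega
      · exact natDegree_mul_le.trans (by omega)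
    rw [h, h1] at h2
    obtain ⟨m, hm⟩ := hp
    omega

theorem ZZXaux.tele {R : Type} [CommRing R] [CharP R 2] (s : R) (m : ℕ) :
    (∑ i ∈ Finset.range m, s ^ (2 ^ i)) ^ 2 + ∑ i ∈ Finset.range m, s ^ (2 ^ i) =
      s ^ (2 ^ m) + s := by
  induction m with
  | zero => simp [CharTwo.add_self_eq_zero]
  | succ m ih =>
    rw [Finset.sum_range_succ, CharTwo.add_sq]
    have h1 : (s ^ 2 ^ m) ^ 2 = s ^ 2 ^ (m + 1) := by
      rw [← pow_mul, pow_succ]
    have h2 : s ^ 2 ^ m + s ^ 2 ^ m = 0 := CharTwo.add_self_eq_zero _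
    linear_combination ih + h1 + h2

open Polynomial in
theorem zzx_thm : S_ZZX := by
  intro n q f k Ω _ _ _ x c hchar hn hf hq hx hc hcq r hr heq
  have : CharP k 2 := hchar
  have : CharP Ω 2 := charP_of_injective_algebraMap (algebraMap k Ω).injective 2
  have : CharP (Polynomial k) 2 := inferInstance
  have hc1f : (c ^ (2 ^ n)) ^ f = c := by
    rw [← pow_mul, hf, ← pow_add]
    have h1 : n + (n + 1) = 2 * n + 1 := by omega
    rw [h1, ← hq, hcq]
  obtain ⟨c1, hc1⟩ : ∃ c1 : k, c1 ^ f = c := ⟨_, hc1f⟩
  obtain ⟨a, b, hab⟩ := (IntermediateField.mem_adjoin_simple_iff k r).1 hr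
  have hinj : Function.Injective (aeval x : Polynomial k →ₐ[k] Ω) :=
    transcendental_iff_injective.1 hx
  -- the polynomials
  let S : Polynomial k := C c1 * X ^ (1 + 2 ^ n)
  let V : Polynomial k := ∑ i ∈ Finset.range (n + 1), S ^ (2 ^ i)
  have hV : V ^ 2 + V = S ^ f + S := by
    rw [hf]
    exact ZZXaux.tele S (n + 1)
  have hSf : S ^ f = C c * X ^ (f + q) := by
    change (C c1 * X ^ (1 + 2 ^ n)) ^ f = _
    rw [mul_pow, ← C_pow, hc1, ← pow_mul]
    congr 2
    rw [hf, hq, add_mul, one_mul, ← pow_add]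
    congr 2
    omega
  let p : Polynomial k := S + C c * X ^ (f + 1)
  have hfpos : 2 ^ n < f := by
    rw [hf, pow_succ]
    have : 0 < 2 ^ n := by positivity
    omega
  have hdeg : p.natDegree = f + 1 := by
    change (C c1 * X ^ (1 + 2 ^ n) + C c * X ^ (f + 1)).natDegree = f + 1
    have h1 : (C c * X ^ (f + 1) : Polynomial k).natDegree = f + 1 :=
      natDegree_C_mul_X_pow (f + 1) c hc
    rw [natDegree_add_eq_right_of_natDegree_lt, h1]
    rw [h1]
    exact lt_of_le_of_lt (natDegree_C_mul_X_pow_le c1 (1 + 2 ^ n)) (by omega)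
  have hodd : Odd p.natDegree := by
    rw [hdeg, hf, pow_succ]
    exact ⟨2 ^ n, by ring⟩
  by_cases hb : b = 0
  · -- then `r = 0`
    have hr0 : r = 0 := by rw [hab, hb]; simp
    rw [hr0] at heq
    have h0 : aeval x (C c * X ^ f * (X ^ q + X) : Polynomial k) = aeval x (0 : Polynomial k) := by
      simp only [map_mul, map_add, map_pow, aeval_C, aeval_X, map_zero]
      rw [mul_assoc, ← heq]
      simp
    have h1 := hinj h0
    have h2 : (C c * X ^ f * (X ^ q + X) : Polynomial k) ≠ 0 := by
      refine mul_ne_zero (mul_ne_zero (by simpa using hc) (pow_ne_zero _ X_ne_zero)) ?_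
      intro h3
      have h4 := congrArg natDegree h3
      have hq1 : 1 < q := by
        rw [hq]
        exact Nat.one_lt_two_pow (by omega)
      rw [natDegree_add_eq_left_of_natDegree_lt (by simpa using hq1)] at h4
      simp at h4
      omega
    exact h2 h1
  · have hb' : aeval x b ≠ 0 := by
      intro h0
      apply hb
      apply hinj
      rw [h0, map_zero]
    apply ZZXaux.deg (a + V * b) b p hb hodd
    apply hinj
    have e1 : (aeval x a) = r * aeval x b := by
      rw [hab]
      field_simp
    have e2 : (aeval x V) ^ 2 + aeval x V = algebraMap k Ω c * x ^ (f + q) + aeval x S := by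
      have h3 := congrArg (aeval x : Polynomial k →ₐ[k] Ω) hV
      rw [hSf] at h3
      simpa only [map_add, map_pow, map_mul, aeval_C, aeval_X] using h3
    have e3 : aeval x p = aeval x S + algebraMap k Ω c * x ^ (f + 1) := by
      change aeval x (S + C c * X ^ (f + 1)) = _
      simp only [map_add, map_pow, map_mul, aeval_C, aeval_X]
    have h2 : (2 : Ω) = 0 := CharTwo.two_eq_zero
    have e4 : algebraMap k Ω c * (x ^ f * (x ^ q + x)) =
        algebraMap k Ω c * x ^ (f + q) + algebraMap k Ω c * x ^ (f + 1) := by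
      rw [pow_add, pow_add]
      ring
    rw [e4] at heq
    rw [map_add, map_pow, map_add, map_mul, map_mul, map_add, map_mul, map_mul, map_pow, e1, e3]
    linear_combination (aeval x b) ^ 2 * (heq + e2 + (r * aeval x V + algebraMap k Ω c * x ^ (f + q)) * h2)

end Pool.CND
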